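import Mathlib

set_option autoImplicit false



namespace Pool.Agent.Results.MP_f69e58_an.UniversalRotation

open Finset Complex

/-- van der Corput radical inverse in base two. -/
noncomputable def vdc : ℕ → ℝ
  | 0 => 0
  | n + 1 => (vdc ((n + 1) / 2) + ((n + 1) % 2 : ℕ)) / 2
decreasing_by omega

theorem vdc_two_mul (n : ℕ) : vdc (2 * n) = vdc n / 2 := by
  cases n with
  | zero => simp [vdc]
  | succ n =>
    have h : 2 * (n + 1) = (2 * n + 1) + 1 := by ring
    rw [h, vdc]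
    have h1 : (2 * n + 1 + 1) / 2 = n + 1 := by omega
    have h2 : (2 * n + 1 + 1) % 2 = 0 := by omega
    rw [h1, h2]
    simp

theorem vdc_two_mul_add_one (n : ℕ) : vdc (2 * n + 1) = vdc n / 2 + 1 / 2 := by
  rw [vdc]
  have h1 : (2 * n + 1) / 2 = n := by omega
  have h2 : (2 * n + 1) % 2 = 1 := by omega
  rw [h1, h2]
  push_cast
  ring

/-- `η n = exp(-2 π i vdc n)`. -/
noncomputable def eta (n : ℕ) : ℂ := Complex.exp (((-(2 * Real.pi * vdc n) : ℝ) : ℂ) * Complex.I)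

theorem norm_eta (n : ℕ) : ‖eta n‖ = 1 := by
  unfold eta
  exact Complex.norm_exp_ofReal_mul_I _

theorem eta_ne_zero (n : ℕ) : eta n ≠ 0 := Complex.exp_ne_zero _

theorem eta_sq (n : ℕ) : eta (2 * n) ^ 2 = eta n := by
  unfold eta
  rw [vdc_two_mul, ← Complex.exp_nat_mul]
  congr 1
  push_cast
  ring

theorem eta_odd (n : ℕ) : eta (2 * n + 1) = - eta (2 * n) := by
  unfold eta
  rw [vdc_two_mul, vdc_two_mul_add_one]
  have : (((-(2 * Real.pi * (vdc n / 2 + 1 / 2)) : ℝ) : ℂ) * Complex.I)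
      = (((-(2 * Real.pi * (vdc n / 2)) : ℝ) : ℂ) * Complex.I) + (-(Real.pi * Complex.I)) := by
    push_cast; ring
  rw [this, Complex.exp_add, Complex.exp_neg (Real.pi * Complex.I), Complex.exp_pi_mul_I]
  norm_num

/-- Cayley transform -/
noncomputable def Cay (u : ℂ) : ℂ := (1 + u) / (1 - u)

theorem one_sub_ne {u : ℂ} (hu : ‖u‖ < 1) : 1 - u ≠ 0 := by
  intro h
  rw [sub_eq_zero] at h
  rw [← h] at hu
  simp at hu

theorem one_add_ne {u : ℂ} (hu : ‖u‖ < 1) : 1 + u ≠ 0 := by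
  have := one_sub_ne (u := -u) (by simpa using hu)
  simpa using this

theorem cay_pair {u : ℂ} (hu : ‖u‖ < 1) : (Cay u - 1) + (Cay (-u) - 1) = 2 * (Cay (u ^ 2) - 1) := by
  unfold Cay
  have h1 := one_sub_ne hu
  have h2 := one_add_ne hu
  have h3 : 1 - u ^ 2 ≠ 0 := by
    have : 1 - u ^ 2 = (1 - u) * (1 + u) := by ring
    rw [this]; exact mul_ne_zero h1 h2
  have h4 : 1 - -u ≠ 0 := by simpa using h2
  field_simp
  ring

theorem cay_sub_one {u : ℂ} (hu : ‖u‖ < 1) : Cay u - 1 = 2 * u / (1 - u) := by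
  unfold Cay
  have h1 := one_sub_ne hu
  field_simp
  ring

theorem norm_one_sub_ge (u : ℂ) : 1 - ‖u‖ ≤ ‖1 - u‖ := by
  have := norm_sub_norm_le (1 : ℂ) u
  simpa using this

theorem norm_cay_sub_one_le {u : ℂ} {x : ℝ} (hu : ‖u‖ ≤ x) (hx : x < 1) :
    ‖Cay u - 1‖ ≤ 2 * x / (1 - x) := by
  rw [cay_sub_one (lt_of_le_of_lt hu hx), norm_div, norm_mul]
  have h1 := norm_one_sub_ge u
  have h0 := norm_nonneg u
  simp only [Complex.norm_ofNat]
  apply div_le_div₀ <;> linarith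

/-- real part of the Cayley transform: the Poisson kernel -/
theorem cay_re (u : ℂ) (hu : ‖u‖ < 1) : (Cay u).re = (1 - ‖u‖ ^ 2) / ‖1 - u‖ ^ 2 := by
  unfold Cay
  rw [Complex.div_re, ← Complex.normSq_eq_norm_sq, ← Complex.normSq_eq_norm_sq]
  have h : Complex.normSq (1 - u) ≠ 0 := by
    rw [Ne, Complex.normSq_eq_zero]
    exact one_sub_ne hu
  field_simp
  simp [Complex.normSq_apply]
  ring

theorem cay_re_pos (u : ℂ) (hu : ‖u‖ < 1) : 0 < (Cay u).re := by
  rw [cay_re u hu]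
  have h1 : 0 < ‖1 - u‖ := norm_pos_iff.mpr (one_sub_ne hu)
  have h0 := norm_nonneg u
  have : 0 < 1 - ‖u‖ ^ 2 := by nlinarith
  positivity

theorem cay_re_le {u : ℂ} {x : ℝ} (hu : ‖u‖ ≤ x) (hx : x < 1) :
    (Cay u).re ≤ (1 + x) / (1 - x) := by
  have h1 := norm_cay_sub_one_le hu hx
  have h2 : (Cay u - 1).re ≤ ‖Cay u - 1‖ := Complex.re_le_norm _
  have h3 : (Cay u - 1).re = (Cay u).re - 1 := by simp
  have h4 : (1 + x) / (1 - x) = 2 * x / (1 - x) + 1 := by
    have : 1 - x ≠ 0 := by linarith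
    field_simp
    ring
  rw [h4]
  linarith

/-- partial sums of the kernel -/
noncomputable def T (b : ℕ) (u : ℂ) : ℂ := ∑ j ∈ range b, (Cay (eta j * u) - 1)

theorem T_succ (b : ℕ) (u : ℂ) : T (b + 1) u = T b u + (Cay (eta b * u) - 1) := by
  unfold T; rw [sum_range_succ]

theorem norm_eta_mul (j : ℕ) (u : ℂ) : ‖eta j * u‖ = ‖u‖ := by
  rw [norm_mul, norm_eta, one_mul]

theorem T_double {u : ℂ} (hu : ‖u‖ < 1) (b : ℕ) : T (2 * b) u = 2 * T b (u ^ 2) := by
  induction b with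
  | zero => simp [T]
  | succ b ih =>
    have h : 2 * (b + 1) = 2 * b + 1 + 1 := by ring
    rw [h, T_succ, T_succ, ih, T_succ, eta_odd]
    have h1 := cay_pair (u := eta (2 * b) * u) (by rw [norm_eta_mul]; exact hu)
    rw [mul_pow, eta_sq] at h1
    rw [mul_add, ← h1, neg_mul]
    ring

theorem norm_pow_lt {u : ℂ} (hu : ‖u‖ < 1) (n : ℕ) (hn : n ≠ 0) : ‖u ^ n‖ < 1 := by
  rw [norm_pow]
  exact pow_lt_one₀ (norm_nonneg _) hu hn

theorem T_pow {u : ℂ} (hu : ‖u‖ < 1) (l a : ℕ) : T (2 ^ l * a) u = 2 ^ l * T a (u ^ (2 ^ l)) := by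
  induction l generalizing u with
  | zero => simp
  | succ l ih =>
    have h : 2 ^ (l + 1) * a = 2 * (2 ^ l * a) := by ring
    rw [h, T_double hu, ih (norm_pow_lt hu 2 (by norm_num)), ← pow_mul]
    ring_nf

theorem T_small (b : ℕ) : ∀ u : ℂ, ‖u‖ ≤ 1 / 4 → ‖T b u‖ ≤ 6 * ‖u‖ := by
  induction b using Nat.strong_induction_on with
  | _ b ih =>
    intro u hu
    have hu1 : ‖u‖ < 1 := by linarith
    have hsq : ‖u ^ 2‖ ≤ 1 / 4 * ‖u‖ := by
      rw [norm_pow]; nlinarith [norm_nonneg u]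
    have hsq' : ‖u ^ 2‖ ≤ 1 / 4 := by nlinarith [norm_nonneg u]
    rcases Nat.even_or_odd' b with ⟨c, rfl | rfl⟩
    · rcases Nat.eq_zero_or_pos c with rfl | hc
      · simp [T]
      · rw [T_double hu1, norm_mul, Complex.norm_ofNat]
        have := ih c (by omega) (u ^ 2) hsq'
        nlinarith [norm_nonneg u]
    · rw [T_succ, T_double hu1]
      have h1 : ‖T c (u ^ 2)‖ ≤ 6 * ‖u ^ 2‖ := by
        rcases Nat.eq_zero_or_pos c with rfl | hc
        · simp [T]
        · exact ih c (by omega) (u ^ 2) hsq'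
      have h2 : ‖Cay (eta (2 * c) * u) - 1‖ ≤ 8 / 3 * ‖u‖ := by
        have := norm_cay_sub_one_le (u := eta (2 * c) * u) (x := ‖u‖)
          (by rw [norm_eta_mul]) hu1
        refine this.trans ?_
        rw [div_le_iff₀ (by linarith)]
        nlinarith [norm_nonneg u]
      calc ‖2 * T c (u ^ 2) + (Cay (eta (2 * c) * u) - 1)‖
          ≤ ‖2 * T c (u ^ 2)‖ + ‖Cay (eta (2 * c) * u) - 1‖ := norm_add_le _ _
        _ ≤ 2 * (6 * ‖u ^ 2‖) + 8 / 3 * ‖u‖ := by
            rw [norm_mul, Complex.norm_ofNat]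
            gcongr
        _ ≤ 6 * ‖u‖ := by nlinarith [norm_nonneg u]


theorem block_sum {u : ℂ} (hu : ‖u‖ < 1) (l a : ℕ) :
    ∑ j ∈ Ico (2 ^ l * a) (2 ^ l * (a + 1)), (Cay (eta j * u) - 1)
      = 2 ^ l * (Cay (eta a * u ^ (2 ^ l)) - 1) := by
  have h1 : 2 ^ l * a ≤ 2 ^ l * (a + 1) := Nat.mul_le_mul_left _ (Nat.le_succ a)
  rw [sum_Ico_eq_sub _ h1]
  change T (2 ^ l * (a + 1)) u - T (2 ^ l * a) u = _
  rw [T_pow hu, T_pow hu, T_succ]
  ring

theorem T_split (b l : ℕ) (u : ℂ) :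
    T b u = T (2 ^ l * (b / 2 ^ l)) u
      + ∑ j ∈ Ico (2 ^ l * (b / 2 ^ l)) b, (Cay (eta j * u) - 1) := by
  have h1 : 2 ^ l * (b / 2 ^ l) ≤ b := Nat.mul_div_le b (2 ^ l)
  unfold T
  rw [sum_Ico_eq_sub _ h1]
  ring

theorem T_bound (b : ℕ) {u : ℂ} {δ : ℝ} (hδ0 : 0 < δ) (hδ1 : δ ≤ 1) (hu : ‖u‖ ≤ 1 - δ) :
    |(T b u).re| ≤ 13 / δ := by
  have hu1 : ‖u‖ < 1 := by linarith
  obtain ⟨n, hn1, hn2⟩ := exists_nat_pow_near (x := 2 / δ) (y := 2)
    (by rw [le_div_iff₀ hδ0]; linarith) (by norm_num)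
  set l := n + 1 with hl
  have hq1 : 2 / δ ≤ (2 : ℝ) ^ l := hn2.le
  have hq2 : (2 : ℝ) ^ l ≤ 4 / δ := by
    rw [hl, pow_succ]
    have : 4 / δ = 2 / δ * 2 := by ring
    rw [this]; gcongr
  have hq0 : (0 : ℝ) < 2 ^ l := by positivity
  -- the power is small
  have hpow : ‖u ^ (2 ^ l)‖ ≤ 1 / 4 := by
    rw [norm_pow]
    have h1 : ‖u‖ ≤ Real.exp (-δ) := by
      have := Real.add_one_le_exp (-δ)
      linarith
    have h2 : ‖u‖ ^ (2 ^ l) ≤ Real.exp (-δ) ^ (2 ^ l) := by gcongr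
    refine h2.trans ?_
    rw [← Real.exp_nat_mul]
    have h3 : ((2 ^ l : ℕ) : ℝ) * (-δ) ≤ -2 := by
      push_cast
      have : 2 ≤ (2 : ℝ) ^ l * δ := by
        rwa [div_le_iff₀ hδ0] at hq1
      linarith
    calc Real.exp (((2 ^ l : ℕ) : ℝ) * (-δ)) ≤ Real.exp (-2) := Real.exp_le_exp.mpr h3
      _ ≤ 1 / 4 := by
        have h4 : Real.exp (-2) = (Real.exp 1 * Real.exp 1)⁻¹ := by
          rw [← Real.exp_add, ← Real.exp_neg]; norm_num
        rw [h4, one_div]
        apply inv_anti₀ (by norm_num)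
        have := Real.exp_one_gt_d9
        nlinarith
  set a := b / 2 ^ l with ha
  rw [T_split b l u, Complex.add_re]
  have hA : |(T (2 ^ l * a) u).re| ≤ 3 / 2 * 2 ^ l := by
    rw [T_pow hu1]
    refine (Complex.abs_re_le_norm _).trans ?_
    rw [norm_mul, norm_pow, Complex.norm_ofNat]
    have := T_small a _ hpow
    have h3 : ‖T a (u ^ 2 ^ l)‖ ≤ 3 / 2 := by linarith
    nlinarith
  -- the incomplete block
  have hb1 : 2 ^ l * a ≤ b := Nat.mul_div_le b (2 ^ l)
  have hb2 : b ≤ 2 ^ l * (a + 1) := by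
    have := Nat.lt_mul_div_succ b (show 0 < 2 ^ l by positivity)
    exact this.le
  have hsub : Ico (2 ^ l * a) b ⊆ Ico (2 ^ l * a) (2 ^ l * (a + 1)) :=
    Finset.Ico_subset_Ico_right hb2
  have hcard : ((Ico (2 ^ l * a) b).card : ℝ) ≤ 2 ^ l := by
    rw [Nat.card_Ico]
    have : b - 2 ^ l * a ≤ 2 ^ l := by
      have : 2 ^ l * (a + 1) = 2 ^ l * a + 2 ^ l := by ring
      omega
    exact_mod_cast this
  have hre : ∀ s : Finset ℕ, (∑ j ∈ s, (Cay (eta j * u) - 1)).re
      = ∑ j ∈ s, (Cay (eta j * u)).re - s.card := by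
    intro s
    rw [Complex.re_sum]
    simp [Finset.sum_sub_distrib]
  have hpos : ∀ j, 0 ≤ (Cay (eta j * u)).re := fun j =>
    (cay_re_pos _ (by rw [norm_eta_mul]; exact hu1)).le
  have hlow : -(2 : ℝ) ^ l ≤ (∑ j ∈ Ico (2 ^ l * a) b, (Cay (eta j * u) - 1)).re := by
    rw [hre]
    have : 0 ≤ ∑ j ∈ Ico (2 ^ l * a) b, (Cay (eta j * u)).re :=
      Finset.sum_nonneg (fun j _ => hpos j)
    linarith
  have hup : (∑ j ∈ Ico (2 ^ l * a) b, (Cay (eta j * u) - 1)).re ≤ 5 / 3 * 2 ^ l := by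
    rw [hre]
    have h1 : ∑ j ∈ Ico (2 ^ l * a) b, (Cay (eta j * u)).re
        ≤ ∑ j ∈ Ico (2 ^ l * a) (2 ^ l * (a + 1)), (Cay (eta j * u)).re :=
      Finset.sum_le_sum_of_subset_of_nonneg hsub (fun j _ _ => hpos j)
    have h2 := hre (Ico (2 ^ l * a) (2 ^ l * (a + 1)))
    rw [block_sum hu1] at h2
    have hc : ((Ico (2 ^ l * a) (2 ^ l * (a + 1))).card : ℝ) = 2 ^ l := by
      rw [Nat.card_Ico]
      have : 2 ^ l * (a + 1) - 2 ^ l * a = 2 ^ l := by
        rw [mul_add, mul_one, Nat.add_sub_cancel_left]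
      rw [this]; push_cast; ring
    rw [hc] at h2
    have h3 : ((2 : ℂ) ^ l * (Cay (eta a * u ^ 2 ^ l) - 1)).re
        = 2 ^ l * ((Cay (eta a * u ^ 2 ^ l)).re - 1) := by
      have : ((2 : ℂ) ^ l) = (((2 : ℝ) ^ l : ℝ) : ℂ) := by push_cast; ring
      rw [this, Complex.re_ofReal_mul]
      simp
    rw [h3] at h2
    have h4 : (Cay (eta a * u ^ 2 ^ l)).re ≤ 5 / 3 := by
      have := cay_re_le (u := eta a * u ^ 2 ^ l) (x := 1 / 4)
        (by rw [norm_eta_mul]; exact hpow) (by norm_num)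
      norm_num at this
      exact this
    have h5 : (0 : ℝ) ≤ ((Ico (2 ^ l * a) b).card : ℝ) := by positivity
    nlinarith
  have hfin : 19 / 6 * (2 : ℝ) ^ l ≤ 13 / δ := by
    have : 13 / δ = 13 / 4 * (4 / δ) := by ring
    rw [this]
    nlinarith
  rw [abs_le] at hA ⊢
  constructor <;> nlinarith [hA.1, hA.2]

theorem T_crude (x : ℝ) (hx0 : 0 ≤ x) (hx : x < 1) :
    ∃ K : ℝ, 0 ≤ K ∧ ∀ (b : ℕ) (u : ℂ), ‖u‖ ≤ x → ‖T b u‖ ≤ K := by
  obtain ⟨m, hm⟩ := exists_pow_lt_of_lt_one (show (0 : ℝ) < 1 / 4 by norm_num) hx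
  obtain ⟨l, hl⟩ : ∃ l : ℕ, m ≤ 2 ^ l := ⟨m, Nat.lt_two_pow_self.le⟩
  refine ⟨2 ^ l * (3 / 2) + 2 ^ l * (2 * x / (1 - x)), ?_, ?_⟩
  · have : 0 ≤ 2 * x / (1 - x) := div_nonneg (by linarith) (by linarith)
    positivity
  · intro b u hu
    have hu1 : ‖u‖ < 1 := by linarith
    have hpow : ‖u ^ (2 ^ l)‖ ≤ 1 / 4 := by
      rw [norm_pow]
      calc ‖u‖ ^ (2 ^ l) ≤ x ^ (2 ^ l) := by gcongr
        _ ≤ x ^ m := pow_le_pow_of_le_one hx0 hx.le hl
        _ ≤ 1 / 4 := hm.le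
    rw [T_split b l u]
    refine (norm_add_le _ _).trans ?_
    apply add_le_add
    · rw [T_pow hu1, norm_mul, norm_pow, Complex.norm_ofNat]
      have := T_small (b / 2 ^ l) _ hpow
      gcongr
      linarith
    · refine (norm_sum_le _ _).trans ?_
      have h1 : ∀ j ∈ Ico (2 ^ l * (b / 2 ^ l)) b, ‖Cay (eta j * u) - 1‖ ≤ 2 * x / (1 - x) := by
        intro j _
        exact norm_cay_sub_one_le (by rw [norm_eta_mul]; exact hu) hx
      refine (Finset.sum_le_card_nsmul _ _ _ h1).trans ?_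
      rw [nsmul_eq_mul, Nat.card_Ico]
      have h2 : ((b - 2 ^ l * (b / 2 ^ l) : ℕ) : ℝ) ≤ 2 ^ l := by
        have h3 := Nat.lt_mul_div_succ b (show 0 < 2 ^ l by positivity)
        have h4 : 2 ^ l * (b / 2 ^ l + 1) = 2 ^ l * (b / 2 ^ l) + 2 ^ l := by ring
        have : b - 2 ^ l * (b / 2 ^ l) ≤ 2 ^ l := by omega
        exact_mod_cast this
      have h5 : 0 ≤ 2 * x / (1 - x) := div_nonneg (by linarith) (by linarith)
      gcongr

end Pool.Agent.Results.MP_f69e58_an.UniversalRotation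


namespace Pool.Agent.Results.MP_f69e58_an.UniversalRotation

open Finset Complex

theorem abel {E : Type*} [NormedAddCommGroup E] (g : ℕ → ℝ → E) (ρ : ℕ → ℝ) (hρ : Monotone ρ)
    (K : ℝ) (a : ℕ) (top : ℝ)
    (h : ∀ i s t, ρ a ≤ s → s ≤ t → t ≤ top →
      ‖∑ j ∈ Ico a i, g j s - ∑ j ∈ Ico a i, g j t‖ ≤ K * (t - s)) :
    ∀ b, a ≤ b → ∀ s, (∀ j, a ≤ j → j < b → ρ j ≤ s) → ρ a ≤ s → s ≤ top →
      ‖∑ j ∈ Ico a b, g j (ρ j) - ∑ j ∈ Ico a b, g j s‖ ≤ K * (s - ρ a) := by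
  intro b hb
  induction b, hb using Nat.le_induction with
  | base =>
    intro s _ hs hst
    have := h a (ρ a) s le_rfl hs hst
    simpa using this
  | succ b hb ih =>
    intro s hs1 hs2 hs3
    have hbs : ρ b ≤ s := hs1 b hb (Nat.lt_succ_self b)
    have hab : ρ a ≤ ρ b := hρ hb
    have h1 := ih (ρ b) (fun j _ hj => hρ hj.le) hab (hbs.trans hs3)
    have h2 := h (b + 1) (ρ b) s hab hbs hs3
    have h3 : ∑ j ∈ Ico a (b + 1), g j (ρ j) - ∑ j ∈ Ico a (b + 1), g j s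
        = (∑ j ∈ Ico a b, g j (ρ j) - ∑ j ∈ Ico a b, g j (ρ b))
          + (∑ j ∈ Ico a (b + 1), g j (ρ b) - ∑ j ∈ Ico a (b + 1), g j s) := by
      rw [Finset.sum_Ico_succ_top hb, Finset.sum_Ico_succ_top hb, Finset.sum_Ico_succ_top hb]
      abel
    rw [h3]
    calc _ ≤ K * (ρ b - ρ a) + K * (s - ρ b) := (norm_add_le _ _).trans (add_le_add h1 h2)
      _ = K * (s - ρ a) := by ring

/-- logarithm of the factor with zero at modulus `ρ` -/
noncomputable def ell (z : ℂ) (j : ℕ) (ρ : ℝ) : ℂ :=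
  Complex.log (1 - eta j * z / ρ) - Complex.log (1 - ρ * (eta j * z))

theorem mem_slit {u : ℂ} (hu : ‖u‖ < 1) : 1 - u ∈ slitPlane := by
  left
  have := (Complex.abs_re_le_norm u).trans_lt hu
  rw [abs_lt] at this
  simp only [sub_re, one_re]
  linarith

theorem ell_hasDerivAt (z : ℂ) (j : ℕ) (ρ : ℝ) (h0 : 0 < ρ) (h1 : ‖z‖ < ρ) (h2 : ρ * ‖z‖ < 1) :
    HasDerivAt (fun t : ℝ => ell z j t)
      ((1 / (2 * ρ) : ℝ) * ((Cay (eta j * (z / ρ)) - 1) + (Cay (eta j * (ρ * z)) - 1))) ρ := by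
  have hρ : (ρ : ℂ) ≠ 0 := by exact_mod_cast h0.ne'
  have hn1 : ‖eta j * z / ρ‖ < 1 := by
    rw [norm_div, norm_eta_mul, Complex.norm_real, Real.norm_eq_abs, abs_of_pos h0,
      div_lt_one h0]
    exact h1
  have hn2 : ‖(ρ : ℂ) * (eta j * z)‖ < 1 := by
    rw [norm_mul, norm_eta_mul, Complex.norm_real, Real.norm_eq_abs, abs_of_pos h0]
    exact h2
  have d0 : HasDerivAt (fun t : ℝ => (t : ℂ)) 1 ρ := Complex.ofRealCLM.hasDerivAt
  have d1 : HasDerivAt (fun t : ℝ => (1 : ℂ) - eta j * z / t) (eta j * z / ρ ^ 2) ρ := by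
    have := ((d0.fun_inv hρ).const_mul (eta j * z)).const_sub 1
    refine this.congr_deriv ?_
    field_simp
  have d2 : HasDerivAt (fun t : ℝ => (1 : ℂ) - t * (eta j * z)) (-(eta j * z)) ρ := by
    have := (d0.mul_const (eta j * z)).const_sub 1
    refine this.congr_deriv ?_
    ring
  have e1 := d1.clog_real (mem_slit hn1)
  have e2 := d2.clog_real (mem_slit hn2)
  have e3 := e1.fun_sub e2
  refine e3.congr_deriv ?_
  have c1 : ‖eta j * (z / ρ)‖ < 1 := by
    have : eta j * (z / ρ) = eta j * z / ρ := by ring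
    rwa [this]
  have c2 : ‖eta j * (ρ * z)‖ < 1 := by
    have : eta j * (ρ * z) = (ρ : ℂ) * (eta j * z) := by ring
    rwa [this]
  rw [cay_sub_one c1, cay_sub_one c2]
  have n1 := one_sub_ne hn1
  have n2 := one_sub_ne hn2
  have n3 : 1 - eta j * (z / ρ) ≠ 0 := one_sub_ne c1
  have n4 : 1 - eta j * (ρ * z) ≠ 0 := one_sub_ne c2
  have n5 : (ρ : ℂ) - eta j * z ≠ 0 := by
    intro h
    apply n1
    rw [sub_eq_zero] at h
    rw [← h, div_self hρ, sub_self]
  push_cast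
  field_simp
  ring

theorem sum_ell_hasDerivAt (z : ℂ) (a i : ℕ) (hai : a ≤ i) (ρ : ℝ) (h0 : 0 < ρ) (h1 : ‖z‖ < ρ)
    (h2 : ρ * ‖z‖ < 1) :
    HasDerivAt (fun t : ℝ => ∑ j ∈ Ico a i, ell z j t)
      ((1 / (2 * ρ) : ℝ) * ((T i (z / ρ) - T a (z / ρ)) + (T i (ρ * z) - T a (ρ * z)))) ρ := by
  have := HasDerivAt.fun_sum (u := Ico a i) (fun j _ => ell_hasDerivAt z j ρ h0 h1 h2)
  refine this.congr_deriv ?_
  rw [← Finset.mul_sum, Finset.sum_add_distrib]
  congr 2
  · rw [sum_Ico_eq_sub _ hai]; rfl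
  · rw [sum_Ico_eq_sub _ hai]; rfl

theorem exp_ell (z : ℂ) (j : ℕ) (ρ : ℝ) (h0 : 0 < ρ) (h1 : ‖z‖ < ρ) (h2 : ρ * ‖z‖ < 1) :
    Complex.exp (ell z j ρ) = (1 - eta j * z / ρ) / (1 - ρ * (eta j * z)) := by
  have hn1 : ‖eta j * z / ρ‖ < 1 := by
    rw [norm_div, norm_eta_mul, Complex.norm_real, Real.norm_eq_abs, abs_of_pos h0,
      div_lt_one h0]
    exact h1
  have hn2 : ‖(ρ : ℂ) * (eta j * z)‖ < 1 := by
    rw [norm_mul, norm_eta_mul, Complex.norm_real, Real.norm_eq_abs, abs_of_pos h0]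
    exact h2
  unfold ell
  rw [Complex.exp_sub, Complex.exp_log (one_sub_ne hn1), Complex.exp_log (one_sub_ne hn2)]

theorem ell_one (z : ℂ) (j : ℕ) : ell z j 1 = 0 := by
  unfold ell; simp


/-- data on the norms -/
theorem norm_div_le_aux {z : ℂ} {ρ : ℝ} {Y : ℝ} (hY0 : 0 < Y) (hY : ‖z‖ = 1 - Y)
    (hρ : 1 - Y / 2 ≤ ρ) (hρ1 : 0 < ρ) : ‖z / (ρ : ℂ)‖ ≤ 1 - Y / 2 := by
  rw [norm_div, Complex.norm_real, Real.norm_eq_abs, abs_of_pos hρ1, div_le_iff₀ hρ1, hY]
  have h0 : 0 ≤ 1 - Y := by rw [← hY]; exact norm_nonneg z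
  nlinarith

theorem tail_re_bound (ρ : ℕ → ℝ) (hρ : Monotone ρ) (hρ1 : ∀ j, ρ j < 1) (z : ℂ) (hz : ‖z‖ < 1)
    (a b : ℕ) (hab : a ≤ b) (ha : 1 - (1 - ‖z‖) / 2 ≤ ρ a) :
    |∑ j ∈ Ico a b, (ell z j (ρ j)).re| ≤ 52 := by
  set Y := 1 - ‖z‖ with hY
  have hY0 : 0 < Y := by rw [hY]; linarith
  have hY1 : Y ≤ 1 := by rw [hY]; linarith [norm_nonneg z]
  have hzY : ‖z‖ = 1 - Y := by rw [hY]; ring
  have key : ∀ i s t, ρ a ≤ s → s ≤ t → t ≤ 1 →
      ‖∑ j ∈ Ico a i, (ell z j s).re - ∑ j ∈ Ico a i, (ell z j t).re‖ ≤ 104 / Y * (t - s) := by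
    intro i s t hs hst ht
    rcases lt_or_ge i a with hia | hai
    · rw [Finset.Ico_eq_empty (by omega)]
      simp only [Finset.sum_empty, sub_zero, norm_zero]
      exact mul_nonneg (by positivity) (by linarith)
    · have hd : ∀ x ∈ Set.Icc s t, HasDerivWithinAt
          (fun y : ℝ => ∑ j ∈ Ico a i, (ell z j y).re)
          (((1 / (2 * x) : ℝ) * ((T i (z / x) - T a (z / x)) + (T i (x * z) - T a (x * z))) : ℂ).re)
          (Set.Icc s t) x := by
        intro x hx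
        have hx0 : 0 < x := by
          have : ρ a ≤ x := hs.trans hx.1
          linarith
        have h1 : ‖z‖ < x := by
          have : ρ a ≤ x := hs.trans hx.1
          rw [hzY]; linarith
        have h2 : x * ‖z‖ < 1 := by
          have : x ≤ 1 := hx.2.trans ht
          nlinarith [norm_nonneg z]
        have h3 := sum_ell_hasDerivAt z a i hai x hx0 h1 h2
        have h4 := Complex.reCLM.hasFDerivAt.comp_hasDerivAt x h3
        have h5 : (Complex.reCLM ∘ fun t : ℝ => ∑ j ∈ Ico a i, ell z j t)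
            = (fun y : ℝ => ∑ j ∈ Ico a i, (ell z j y).re) := by
          funext y
          simp
        rw [h5] at h4
        exact h4.hasDerivWithinAt
      have hb : ∀ x ∈ Set.Ico s t,
          ‖(((1 / (2 * x) : ℝ) * ((T i (z / x) - T a (z / x)) + (T i (x * z) - T a (x * z)))
            : ℂ).re)‖ ≤ 104 / Y := by
        intro x hx
        have hxa : ρ a ≤ x := hs.trans hx.1
        have hx0 : 0 < x := by linarith
        have hx2 : 1 / 2 ≤ x := by linarith
        have hx1 : x ≤ 1 := hx.2.le.trans ht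
        have n1 : ‖z / (x : ℂ)‖ ≤ 1 - Y / 2 := norm_div_le_aux hY0 hzY (ha.trans hxa) hx0
        have n2 : ‖(x : ℂ) * z‖ ≤ 1 - Y / 2 := by
          rw [norm_mul, Complex.norm_real, Real.norm_eq_abs, abs_of_pos hx0, hzY]
          have : 0 ≤ 1 - Y := by linarith
          nlinarith
        have b1 := T_bound i (δ := Y / 2) (by linarith) (by linarith) n1
        have b2 := T_bound a (δ := Y / 2) (by linarith) (by linarith) n1
        have b3 := T_bound i (δ := Y / 2) (by linarith) (by linarith) n2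
        have b4 := T_bound a (δ := Y / 2) (by linarith) (by linarith) n2
        have e : 13 / (Y / 2) = 26 / Y := by field_simp; norm_num
        rw [e] at b1 b2 b3 b4
        rw [Complex.re_ofReal_mul, Real.norm_eq_abs, abs_mul]
        have h1 : |1 / (2 * x)| ≤ 1 := by
          rw [abs_of_pos (by positivity), div_le_one (by positivity)]
          linarith
        have h2 : |((T i (z / x) - T a (z / x)) + (T i (x * z) - T a (x * z))).re| ≤ 104 / Y := by
          have e2 : 104 / Y = 26 / Y + 26 / Y + (26 / Y + 26 / Y) := by ring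
          rw [e2]
          simp only [Complex.add_re, Complex.sub_re]
          refine (abs_add_le _ _).trans (add_le_add ?_ ?_)
          · exact (abs_sub _ _).trans (add_le_add b1 b2)
          · exact (abs_sub _ _).trans (add_le_add b3 b4)
        calc |1 / (2 * x)| * |((T i (z / x) - T a (z / x)) + (T i (x * z) - T a (x * z))).re|
            ≤ 1 * (104 / Y) := by gcongr
          _ = 104 / Y := one_mul _
      have := norm_image_sub_le_of_norm_deriv_le_segment' hd hb t ⟨hst, le_rfl⟩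
      rw [norm_sub_rev]
      exact this
  have h1 := abel (fun j x => (ell z j x).re) ρ hρ (104 / Y) a 1 key b hab 1
    (fun j _ _ => (hρ1 j).le) (hρ1 a).le le_rfl
  simp only [ell_one, Complex.zero_re, Finset.sum_const_zero, sub_zero,
    Real.norm_eq_abs] at h1
  refine h1.trans ?_
  have h2 : 1 - ρ a ≤ Y / 2 := by linarith
  calc 104 / Y * (1 - ρ a) ≤ 104 / Y * (Y / 2) := by gcongr
    _ = 52 := by field_simp; norm_num

end Pool.Agent.Results.MP_f69e58_an.UniversalRotation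


namespace Pool.Agent.Results.MP_f69e58_an.UniversalRotation

open Finset Complex

/-- crude complex tail bound, used only for convergence -/
theorem tail_norm_bound (r : ℝ) (hr0 : 0 ≤ r) (hr1 : r < 1) :
    ∃ K : ℝ, 0 ≤ K ∧ ∀ (ρ : ℕ → ℝ), Monotone ρ → (∀ j, ρ j < 1) → ∀ (z : ℂ), ‖z‖ ≤ r →
      ∀ a b, a ≤ b → (1 + r) / 2 ≤ ρ a →
      ‖∑ j ∈ Ico a b, ell z j (ρ j)‖ ≤ K * (1 - ρ a) := by
  have hx1 : 2 * r / (1 + r) < 1 := by rw [div_lt_one (by linarith)]; linarith
  have hx0 : 0 ≤ 2 * r / (1 + r) := by positivity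
  obtain ⟨K, hK0, hK⟩ := T_crude (2 * r / (1 + r)) hx0 hx1
  refine ⟨4 * K, by positivity, ?_⟩
  intro ρ hρ hρ1 z hz a b hab ha
  have key : ∀ i s t, ρ a ≤ s → s ≤ t → t ≤ 1 →
      ‖∑ j ∈ Ico a i, (ell z j s) - ∑ j ∈ Ico a i, (ell z j t)‖ ≤ 4 * K * (t - s) := by
    intro i s t hs hst ht
    rcases lt_or_ge i a with hia | hai
    · rw [Finset.Ico_eq_empty (by omega)]
      simp only [Finset.sum_empty, sub_zero, norm_zero]
      exact mul_nonneg (by positivity) (by linarith)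
    · have hd : ∀ x ∈ Set.Icc s t, HasDerivWithinAt
          (fun y : ℝ => ∑ j ∈ Ico a i, (ell z j y))
          ((1 / (2 * x) : ℝ) * ((T i (z / x) - T a (z / x)) + (T i (x * z) - T a (x * z))) : ℂ)
          (Set.Icc s t) x := by
        intro x hx
        have hxa : ρ a ≤ x := hs.trans hx.1
        have hx0 : 0 < x := by linarith
        have h1 : ‖z‖ < x := by linarith
        have h2 : x * ‖z‖ < 1 := by
          have : x ≤ 1 := hx.2.trans ht
          nlinarith [norm_nonneg z]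
        exact (sum_ell_hasDerivAt z a i hai x hx0 h1 h2).hasDerivWithinAt
      have hb : ∀ x ∈ Set.Ico s t,
          ‖((1 / (2 * x) : ℝ) * ((T i (z / x) - T a (z / x)) + (T i (x * z) - T a (x * z)))
            : ℂ)‖ ≤ 4 * K := by
        intro x hx
        have hxa : ρ a ≤ x := hs.trans hx.1
        have hx0 : 0 < x := by linarith
        have hx2 : 1 / 2 ≤ x := by linarith
        have hx1 : x ≤ 1 := hx.2.le.trans ht
        have n1 : ‖z / (x : ℂ)‖ ≤ 2 * r / (1 + r) := by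
          rw [norm_div, Complex.norm_real, Real.norm_eq_abs, abs_of_pos hx0,
            div_le_div_iff₀ hx0 (by linarith)]
          have h3 : (1 + r) / 2 ≤ x := ha.trans hxa
          nlinarith [norm_nonneg z]
        have n2 : ‖(x : ℂ) * z‖ ≤ 2 * r / (1 + r) := by
          rw [norm_mul, Complex.norm_real, Real.norm_eq_abs, abs_of_pos hx0,
            le_div_iff₀ (by linarith)]
          have h3 : x * ‖z‖ ≤ r := by nlinarith [norm_nonneg z]
          nlinarith [norm_nonneg z]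
        have b1 := hK i _ n1
        have b2 := hK a _ n1
        have b3 := hK i _ n2
        have b4 := hK a _ n2
        rw [norm_mul, Complex.norm_real, Real.norm_eq_abs]
        have h1 : |1 / (2 * x)| ≤ 1 := by
          rw [abs_of_pos (by positivity), div_le_one (by positivity)]
          linarith
        have h2 : ‖((T i (z / x) - T a (z / x)) + (T i (x * z) - T a (x * z)))‖ ≤ 4 * K := by
          have e2 : 4 * K = K + K + (K + K) := by ring
          rw [e2]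
          refine (norm_add_le _ _).trans (add_le_add ?_ ?_)
          · exact (norm_sub_le _ _).trans (add_le_add b1 b2)
          · exact (norm_sub_le _ _).trans (add_le_add b3 b4)
        calc |1 / (2 * x)| * ‖((T i (z / x) - T a (z / x)) + (T i (x * z) - T a (x * z)))‖
            ≤ 1 * (4 * K) := by gcongr
          _ = 4 * K := one_mul _
      have := norm_image_sub_le_of_norm_deriv_le_segment' hd hb t ⟨hst, le_rfl⟩
      rw [norm_sub_rev]
      exact this
  have h1 := abel (fun j x => (ell z j x)) ρ hρ (4 * K) a 1 key b hab 1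
    (fun j _ _ => (hρ1 j).le) (hρ1 a).le le_rfl
  simpa only [ell_one, Finset.sum_const_zero, sub_zero] using h1

/-- Harnack type comparison -/
theorem harnack {w : ℂ} (hw : ‖w‖ < 1) {ρ ρ' : ℝ} (h0 : 0 < ρ) (h1 : ρ ≤ ρ') (h2 : ρ' < 1)
    (h3 : 1 - ρ ≤ 2 * (1 - ρ')) :
    (Cay (ρ' * w)).re ≤ 4 * (Cay (ρ * w)).re := by
  have hw0 := norm_nonneg w
  have e1 : ‖(ρ : ℂ) * w‖ = ρ * ‖w‖ := by
    rw [norm_mul, Complex.norm_real, Real.norm_eq_abs, abs_of_pos h0]
  have e2 : ‖(ρ' : ℂ) * w‖ = ρ' * ‖w‖ := by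
    rw [norm_mul, Complex.norm_real, Real.norm_eq_abs, abs_of_pos (by linarith)]
  have n1 : ‖(ρ : ℂ) * w‖ < 1 := by rw [e1]; nlinarith
  have n2 : ‖(ρ' : ℂ) * w‖ < 1 := by rw [e2]; nlinarith
  rw [cay_re _ n1, cay_re _ n2, e1, e2]
  have p1 : 0 < ‖1 - (ρ : ℂ) * w‖ := norm_pos_iff.mpr (one_sub_ne n1)
  have p2 : 0 < ‖1 - (ρ' : ℂ) * w‖ := norm_pos_iff.mpr (one_sub_ne n2)
  have hcmp : ‖1 - (ρ : ℂ) * w‖ ≤ 2 * ‖1 - (ρ' : ℂ) * w‖ := by
    have q1 : (1 : ℂ) - (ρ : ℂ) * w = (1 - (ρ' : ℂ) * w) + ((ρ' - ρ : ℝ) : ℂ) * w := by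
      push_cast; ring
    have q2 : ‖(((ρ' - ρ : ℝ) : ℂ)) * w‖ ≤ ‖1 - (ρ' : ℂ) * w‖ := by
      rw [norm_mul, Complex.norm_real, Real.norm_eq_abs, abs_of_nonneg (by linarith)]
      have := norm_one_sub_ge ((ρ' : ℂ) * w)
      rw [e2] at this
      nlinarith
    rw [q1]
    refine (norm_add_le _ _).trans ?_
    linarith
  have hnum : 0 ≤ 1 - (ρ' * ‖w‖) ^ 2 := by
    have : ρ' * ‖w‖ < 1 := by rw [← e2]; exact n2
    have h4 : 0 ≤ ρ' * ‖w‖ := mul_nonneg (by linarith) hw0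
    nlinarith
  have hnum2 : 1 - (ρ' * ‖w‖) ^ 2 ≤ 1 - (ρ * ‖w‖) ^ 2 := by
    have : ρ * ‖w‖ ≤ ρ' * ‖w‖ := by gcongr
    have h4 : 0 ≤ ρ * ‖w‖ := by positivity
    nlinarith
  have hsq : ‖1 - (ρ : ℂ) * w‖ ^ 2 ≤ 4 * ‖1 - (ρ' : ℂ) * w‖ ^ 2 := by nlinarith
  calc (1 - (ρ' * ‖w‖) ^ 2) / ‖1 - (ρ' : ℂ) * w‖ ^ 2
      = 4 * ((1 - (ρ' * ‖w‖) ^ 2) / (4 * ‖1 - (ρ' : ℂ) * w‖ ^ 2)) := by
        field_simp
    _ ≤ 4 * ((1 - (ρ * ‖w‖) ^ 2) / ‖1 - (ρ : ℂ) * w‖ ^ 2) := by
        have := hnum.trans hnum2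
        gcongr

theorem inner_sum (ρ : ℕ → ℝ) (hρ : Monotone ρ) (hρ0 : ∀ j, 0 < ρ j) (z : ℂ) (hz : ‖z‖ < 1)
    (k : ℕ) : ∀ e : ℝ, (1 / 2 : ℝ) ^ k ≤ e → ∀ n : ℕ, (∀ j < n, ρ j < 1 - e) →
      (n : ℝ) / 4 - 13 / e ≤ ∑ j ∈ range n, (Cay (eta j * (ρ j * z))).re := by
  induction k with
  | zero =>
    intro e he n hn
    rcases Nat.eq_zero_or_pos n with rfl | hpos
    · simp only [pow_zero] at he
      have : 0 ≤ 13 / e := by positivity
      simp
      linarith
    · have h1 := hn 0 hpos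
      have h2 := hρ0 0
      simp only [pow_zero] at he
      linarith
  | succ k ih =>
    intro e he n hn
    have he0 : 0 < e := lt_of_lt_of_le (by positivity) he
    rcases Nat.eq_zero_or_pos n with rfl | hpos
    · have : 0 ≤ 13 / e := by positivity
      simp
      linarith
    have he1 : e < 1 := by
      have h1 := hn 0 hpos
      have h2 := hρ0 0
      linarith
    -- the number m
    obtain ⟨m, hmn, hm1, hm2⟩ : ∃ m, m ≤ n ∧ (∀ j < m, ρ j < 1 - 2 * e) ∧
        (∀ j, m ≤ j → j < n → 1 - 2 * e ≤ ρ j) := by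
      by_cases hex : ∃ j, j < n ∧ 1 - 2 * e ≤ ρ j
      · classical
        refine ⟨Nat.find hex, (Nat.find_spec hex).1.le, ?_, ?_⟩
        · intro j hj
          have h1 := Nat.find_min hex hj
          push Not at h1
          exact h1 (hj.trans (Nat.find_spec hex).1)
        · intro j hj _
          exact (Nat.find_spec hex).2.trans (hρ hj)
      · push Not at hex
        exact ⟨n, le_rfl, fun j hj => hex j hj, fun j h1 h2 => by omega⟩
    have h1 := ih (2 * e) (by rw [pow_succ] at he; linarith) m hm1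
    -- the last part
    have hsplit : ∑ j ∈ range n, (Cay (eta j * (ρ j * z))).re
        = ∑ j ∈ range m, (Cay (eta j * (ρ j * z))).re
          + ∑ j ∈ Ico m n, (Cay (eta j * (ρ j * z))).re := by
      rw [← Finset.sum_range_add_sum_Ico _ hmn]
    have hlow : ∑ j ∈ Ico m n, (1 / 4) * (Cay (eta j * (((1 - e : ℝ) : ℂ) * z))).re
        ≤ ∑ j ∈ Ico m n, (Cay (eta j * (ρ j * z))).re := by
      apply Finset.sum_le_sum
      intro j hj
      rw [Finset.mem_Ico] at hj
      have h2 := harnack (w := eta j * z) (by rw [norm_eta_mul]; exact hz) (hρ0 j)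
        (ρ' := 1 - e) (hn j hj.2).le (by linarith) (by linarith [hm2 j hj.1 hj.2])
      have e1 : ((1 - e : ℝ) : ℂ) * (eta j * z) = eta j * (((1 - e : ℝ) : ℂ) * z) := by ring
      have e2 : (ρ j : ℂ) * (eta j * z) = eta j * ((ρ j : ℂ) * z) := by ring
      rw [e1, e2] at h2
      linarith
    have hu : ‖((1 - e : ℝ) : ℂ) * z‖ ≤ 1 - e := by
      rw [norm_mul, Complex.norm_real, Real.norm_eq_abs, abs_of_pos (by linarith)]
      nlinarith [norm_nonneg z]
    have b1 := T_bound n he0 he1.le hu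
    have b2 := T_bound m he0 he1.le hu
    have hT : ∑ j ∈ Ico m n, (Cay (eta j * (((1 - e : ℝ) : ℂ) * z))).re
        = (T n (((1 - e : ℝ) : ℂ) * z)).re - (T m (((1 - e : ℝ) : ℂ) * z)).re + (n - m) := by
      have e3 : T n (((1 - e : ℝ) : ℂ) * z) - T m (((1 - e : ℝ) : ℂ) * z)
          = ∑ j ∈ Ico m n, (Cay (eta j * (((1 - e : ℝ) : ℂ) * z)) - 1) := by
        rw [sum_Ico_eq_sub _ hmn]; rfl
      rw [← Complex.sub_re, e3, Complex.re_sum]
      simp only [Complex.sub_re, Complex.one_re, Finset.sum_sub_distrib, Finset.sum_const,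
        Nat.card_Ico, nsmul_eq_mul, mul_one]
      rw [Nat.cast_sub hmn]
      ring
    rw [← Finset.mul_sum, hT] at hlow
    rw [hsplit]
    rw [abs_le] at b1 b2
    have e4 : 13 / (2 * e) = (13 / e) / 2 := by field_simp
    rw [e4] at h1
    have e5 : (0 : ℝ) < 13 / e := by positivity
    linarith [b1.1, b2.2]

end Pool.Agent.Results.MP_f69e58_an.UniversalRotation


namespace Pool.Agent.Results.MP_f69e58_an.UniversalRotation

open Finset Complex

/-- factor vanishing at `w = ρ` -/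
noncomputable def fac (ρ : ℝ) (w : ℂ) : ℂ := (1 - w / ρ) / (1 - ρ * w)

theorem normSq_identity (ρ : ℝ) (w : ℂ) :
    ‖1 - (ρ : ℂ) * w‖ ^ 2 - ‖(ρ : ℂ) - w‖ ^ 2 = (1 - ρ ^ 2) * (1 - ‖w‖ ^ 2) := by
  rw [← Complex.normSq_eq_norm_sq, ← Complex.normSq_eq_norm_sq, ← Complex.normSq_eq_norm_sq]
  simp only [Complex.normSq_apply, sub_re, one_re, re_ofReal_mul, sub_im, one_im, im_ofReal_mul,
    ofReal_re, ofReal_im]
  ring

theorem fac_norm_le {w : ℂ} (hw : ‖w‖ < 1) {ρ : ℝ} (h0 : 0 < ρ)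
    (h1 : ρ < 1 - (1 - ‖w‖) / 2) :
    ‖fac ρ w‖ ≤ (1 / ρ) * Real.exp (-((1 - ‖w‖) / 10) * (Cay (ρ * w)).re) := by
  have hw0 := norm_nonneg w
  set Y := 1 - ‖w‖ with hY
  have hY0 : 0 < Y := by rw [hY]; linarith
  have e1 : ‖(ρ : ℂ) * w‖ = ρ * ‖w‖ := by
    rw [norm_mul, Complex.norm_real, Real.norm_eq_abs, abs_of_pos h0]
  have hρ1 : ρ < 1 := by linarith
  have n1 : ‖(ρ : ℂ) * w‖ < 1 := by rw [e1]; nlinarith
  have p1 : 0 < ‖1 - (ρ : ℂ) * w‖ := norm_pos_iff.mpr (one_sub_ne n1)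
  have hnorm : ‖fac ρ w‖ = (1 / ρ) * (‖(ρ : ℂ) - w‖ / ‖1 - (ρ : ℂ) * w‖) := by
    unfold fac
    have hρc : (ρ : ℂ) ≠ 0 := by exact_mod_cast h0.ne'
    have : 1 - w / ρ = ((ρ : ℂ) - w) / ρ := by field_simp
    rw [this, norm_div, norm_div, Complex.norm_real, Real.norm_eq_abs, abs_of_pos h0]
    field_simp
  rw [hnorm]
  gcongr
  set q := ‖(ρ : ℂ) - w‖ / ‖1 - (ρ : ℂ) * w‖ with hq
  have hq0 : 0 ≤ q := by positivity
  have hid := normSq_identity ρ w
  have hq2 : q ^ 2 = 1 - (1 - ρ ^ 2) * (1 - ‖w‖ ^ 2) / ‖1 - (ρ : ℂ) * w‖ ^ 2 := by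
    rw [hq, div_pow]
    field_simp
    linarith
  have hre := cay_re _ n1
  rw [e1] at hre
  have hkey : Y / 5 * (Cay (ρ * w)).re ≤ (1 - ρ ^ 2) * (1 - ‖w‖ ^ 2) / ‖1 - (ρ : ℂ) * w‖ ^ 2 := by
    rw [hre, ← mul_div_assoc]
    apply div_le_div_of_nonneg_right _ (by positivity)
    have a1 : ‖w‖ = 1 - Y := by rw [hY]; ring
    have a2 : Y ≤ 1 := by linarith
    have a3 : 1 - ‖w‖ ^ 2 = Y * (2 - Y) := by rw [a1]; ring
    have a4 : 1 - (ρ * ‖w‖) ^ 2 ≤ 5 * (1 - ρ ^ 2) := by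
      have : 1 - (ρ * ‖w‖) ^ 2 = (1 - ρ ^ 2) + ρ ^ 2 * (1 - ‖w‖ ^ 2) := by ring
      rw [this, a3]
      have a5 : Y * (2 - Y) ≤ 2 * Y := by nlinarith
      have a6 : ρ ^ 2 ≤ 1 := by nlinarith
      have a7 : ρ ^ 2 * (Y * (2 - Y)) ≤ 1 * (2 * Y) := by
        apply mul_le_mul a6 a5 (by nlinarith) (by norm_num)
      nlinarith
    have a8 : Y ≤ 1 - ‖w‖ ^ 2 := by rw [a3]; nlinarith
    have a9 : 0 ≤ 1 - ρ ^ 2 := by nlinarith
    have a10 : Y / 5 * (1 - (ρ * ‖w‖) ^ 2) ≤ Y / 5 * (5 * (1 - ρ ^ 2)) := by gcongr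
    nlinarith
  have h2 : q ^ 2 ≤ Real.exp (-(Y / 5) * (Cay (ρ * w)).re) := by
    have := Real.add_one_le_exp (-(Y / 5) * (Cay (ρ * w)).re)
    rw [hq2]
    linarith
  have h3 : Real.exp (-(Y / 5) * (Cay (ρ * w)).re)
      = Real.exp (-(Y / 10) * (Cay (ρ * w)).re) ^ 2 := by
    rw [← Real.exp_nat_mul]
    congr 1
    push_cast
    ring
  rw [h3] at h2
  exact le_of_sq_le_sq h2 (Real.exp_pos _).le

/-- finite products -/
noncomputable def F (ρ : ℕ → ℝ) (n : ℕ) (z : ℂ) : ℂ := ∏ j ∈ range n, fac (ρ j) (eta j * z)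

theorem exp_sum_ell (ρ : ℕ → ℝ) (z : ℂ) (a b : ℕ)
    (h : ∀ j ∈ Ico a b, 0 < ρ j ∧ ‖z‖ < ρ j ∧ ρ j * ‖z‖ < 1) :
    Complex.exp (∑ j ∈ Ico a b, ell z j (ρ j)) = ∏ j ∈ Ico a b, fac (ρ j) (eta j * z) := by
  rw [Complex.exp_sum]
  apply Finset.prod_congr rfl
  intro j hj
  obtain ⟨h0, h1, h2⟩ := h j hj
  rw [exp_ell z j (ρ j) h0 h1 h2]
  rfl

theorem main_bound (ρ : ℕ → ℝ) (hρ : Monotone ρ) (hρ0 : ∀ j, 0 < ρ j) (hρ1 : ∀ j, ρ j < 1)
    (n : ℕ) (z : ℂ) (hz : ‖z‖ < 1) :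
    ‖F ρ n z‖ ≤ Real.exp 55 * ∏ j ∈ range n, max 1 ((1 - (1 - ‖z‖) / 80) / ρ j) := by
  set Y := 1 - ‖z‖ with hY
  have hY0 : 0 < Y := by rw [hY]; linarith
  have hY1 : Y ≤ 1 := by rw [hY]; linarith [norm_nonneg z]
  obtain ⟨m, hmn, hm1, hm2⟩ : ∃ m, m ≤ n ∧ (∀ j < m, ρ j < 1 - Y / 2) ∧
      (∀ j, m ≤ j → j < n → 1 - Y / 2 ≤ ρ j) := by
    by_cases hex : ∃ j, j < n ∧ 1 - Y / 2 ≤ ρ j
    · classical
      refine ⟨Nat.find hex, (Nat.find_spec hex).1.le, ?_, ?_⟩
      · intro j hj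
        have h1 := Nat.find_min hex hj
        push Not at h1
        exact h1 (hj.trans (Nat.find_spec hex).1)
      · intro j hj _
        exact (Nat.find_spec hex).2.trans (hρ hj)
    · push Not at hex
      exact ⟨n, le_rfl, fun j hj => hex j hj, fun j h1 h2 => by omega⟩
  -- inner part
  have hinner : ‖∏ j ∈ range m, fac (ρ j) (eta j * z)‖
      ≤ (∏ j ∈ range m, (1 / ρ j)) * Real.exp (13 / 5 - Y * m / 40) := by
    rw [norm_prod]
    have h1 : ∏ j ∈ range m, ‖fac (ρ j) (eta j * z)‖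
        ≤ ∏ j ∈ range m, ((1 / ρ j) * Real.exp (-(Y / 10) * (Cay (eta j * (ρ j * z))).re)) := by
      apply Finset.prod_le_prod (fun j _ => norm_nonneg _)
      intro j hj
      have := fac_norm_le (w := eta j * z) (by rw [norm_eta_mul]; exact hz) (hρ0 j)
        (by rw [norm_eta_mul]; exact hm1 j (Finset.mem_range.mp hj))
      rw [norm_eta_mul] at this
      have e2 : (ρ j : ℂ) * (eta j * z) = eta j * ((ρ j : ℂ) * z) := by ring
      rwa [e2] at this
    refine h1.trans ?_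
    rw [Finset.prod_mul_distrib, ← Real.exp_sum, ← Finset.mul_sum]
    have hprod : 0 ≤ ∏ j ∈ range m, (1 / ρ j) :=
      Finset.prod_nonneg (fun j _ => by have := hρ0 j; positivity)
    obtain ⟨k, hk⟩ := exists_pow_lt_of_lt_one (show (0 : ℝ) < Y / 2 by positivity)
      (show (1 / 2 : ℝ) < 1 by norm_num)
    have h2 := inner_sum ρ hρ hρ0 z hz k (Y / 2) hk.le m hm1
    gcongr
    have e : 13 / (Y / 2) = 26 / Y := by field_simp; norm_num
    rw [e] at h2
    have h3 : Y * (26 / Y) = 26 := by field_simp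
    have h4 : -(Y / 10) * ∑ j ∈ range m, (Cay (eta j * (ρ j * z))).re
        ≤ -(Y / 10) * ((m : ℝ) / 4 - 26 / Y) := by
      rw [neg_mul, neg_mul, neg_le_neg_iff]
      gcongr
    refine h4.trans (le_of_eq ?_)
    have : -(Y / 10) * ((m : ℝ) / 4 - 26 / Y) = (Y * (26 / Y)) / 10 - Y * m / 40 := by ring
    rw [this, h3]
    norm_num
  -- outer part
  have houter : ‖∏ j ∈ Ico m n, fac (ρ j) (eta j * z)‖ ≤ Real.exp 52 := by
    rcases hmn.eq_or_lt with rfl | hlt
    · simp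
    · have hcond : ∀ j ∈ Ico m n, 0 < ρ j ∧ ‖z‖ < ρ j ∧ ρ j * ‖z‖ < 1 := by
        intro j hj
        rw [Finset.mem_Ico] at hj
        have h1 := hm2 j hj.1 hj.2
        refine ⟨hρ0 j, by linarith, ?_⟩
        have := hρ1 j
        nlinarith [norm_nonneg z]
      rw [← exp_sum_ell ρ z m n hcond, Complex.norm_exp, Real.exp_le_exp, Complex.re_sum]
      exact (le_abs_self _).trans (tail_re_bound ρ hρ hρ1 z hz m n hmn (hm2 m le_rfl hlt))
  -- combination
  have hsplit : F ρ n z = (∏ j ∈ range m, fac (ρ j) (eta j * z))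
      * ∏ j ∈ Ico m n, fac (ρ j) (eta j * z) := by
    unfold F
    rw [Finset.prod_range_mul_prod_Ico _ hmn]
  have hr : Real.exp (-(Y / 40)) ≤ 1 - Y / 80 := by
    have h1 : 1 + Y / 40 ≤ Real.exp (Y / 40) := by linarith [Real.add_one_le_exp (Y / 40)]
    rw [Real.exp_neg]
    rw [inv_le_comm₀ (Real.exp_pos _) (by linarith)]
    refine le_trans ?_ h1
    rw [inv_eq_one_div, div_le_iff₀ (by linarith)]
    nlinarith
  have hmax : (∏ j ∈ range m, (1 / ρ j)) * Real.exp (-(Y / 40)) ^ m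
      ≤ ∏ j ∈ range n, max 1 ((1 - Y / 80) / ρ j) := by
    calc (∏ j ∈ range m, (1 / ρ j)) * Real.exp (-(Y / 40)) ^ m
        = ∏ j ∈ range m, ((1 / ρ j) * Real.exp (-(Y / 40))) := by
          rw [Finset.prod_mul_distrib, Finset.prod_const, Finset.card_range]
      _ ≤ ∏ j ∈ range m, max 1 ((1 - Y / 80) / ρ j) := by
          apply Finset.prod_le_prod
          · intro j _
            have := hρ0 j
            positivity
          · intro j _
            have := hρ0 j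
            refine le_trans ?_ (le_max_right _ _)
            rw [one_div, inv_mul_eq_div]
            gcongr
      _ ≤ ∏ j ∈ range n, max 1 ((1 - Y / 80) / ρ j) := by
          rw [← Finset.prod_range_mul_prod_Ico _ hmn]
          apply le_mul_of_one_le_right
          · exact Finset.prod_nonneg (fun j _ => le_trans zero_le_one (le_max_left _ _))
          · exact Finset.prod_induction _ (fun x : ℝ => 1 ≤ x)
              (fun a b ha hb => one_le_mul_of_one_le_of_one_le ha hb) le_rfl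
              (fun j _ => le_max_left _ _)
  rw [hsplit, norm_mul]
  have hexp : Real.exp (13 / 5 - Y * m / 40) = Real.exp (13 / 5) * Real.exp (-(Y / 40)) ^ m := by
    rw [← Real.exp_nat_mul, ← Real.exp_add]
    congr 1
    ring
  have hprod0 : 0 ≤ ∏ j ∈ range m, (1 / ρ j) :=
    Finset.prod_nonneg (fun j _ => by have := hρ0 j; positivity)
  calc _ ≤ ((∏ j ∈ range m, (1 / ρ j)) * Real.exp (13 / 5 - Y * m / 40)) * Real.exp 52 :=
        mul_le_mul hinner houter (norm_nonneg _) (by positivity)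
    _ = (Real.exp (13 / 5) * Real.exp 52) *
        ((∏ j ∈ range m, (1 / ρ j)) * Real.exp (-(Y / 40)) ^ m) := by rw [hexp]; ring
    _ ≤ Real.exp 55 * ∏ j ∈ range n, max 1 ((1 - Y / 80) / ρ j) := by
        apply mul_le_mul _ hmax
        · positivity
        · exact (Real.exp_pos _).le
        · rw [← Real.exp_add, Real.exp_le_exp]
          norm_num

end Pool.Agent.Results.MP_f69e58_an.UniversalRotation


namespace Pool.Agent.Results.MP_f69e58_an.UniversalRotation

open Finset Complex Filter Topology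

theorem fac_differentiableAt (ρ : ℝ) (h0 : 0 < ρ) (h1 : ρ < 1) (j : ℕ) (z : ℂ) (hz : ‖z‖ < 1) :
    DifferentiableAt ℂ (fun y => fac ρ (eta j * y)) z := by
  unfold fac
  have hn2 : ‖(ρ : ℂ) * (eta j * z)‖ < 1 := by
    rw [norm_mul, norm_eta_mul, Complex.norm_real, Real.norm_eq_abs, abs_of_pos h0]
    nlinarith [norm_nonneg z]
  apply DifferentiableAt.div
  · fun_prop
  · fun_prop
  · exact one_sub_ne hn2

theorem F_differentiableOn (ρ : ℕ → ℝ) (hρ0 : ∀ j, 0 < ρ j) (hρ1 : ∀ j, ρ j < 1) (n : ℕ) :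
    DifferentiableOn ℂ (F ρ n) (Metric.ball 0 1) := by
  intro z hz
  rw [Metric.mem_ball, dist_zero_right] at hz
  apply DifferentiableAt.differentiableWithinAt
  unfold F
  exact DifferentiableAt.fun_finsetProd
    (fun j _ => fac_differentiableAt (ρ j) (hρ0 j) (hρ1 j) j z hz)

theorem F_split (ρ : ℕ → ℝ) (hρ : Monotone ρ) (hρ0 : ∀ j, 0 < ρ j) (hρ1 : ∀ j, ρ j < 1) (z : ℂ)
    (a b : ℕ) (hab : a ≤ b) (ha : ‖z‖ < ρ a) :
    F ρ b z = F ρ a z * Complex.exp (∑ j ∈ Ico a b, ell z j (ρ j)) := by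
  rw [exp_sum_ell]
  · unfold F
    rw [Finset.prod_range_mul_prod_Ico _ hab]
  · intro j hj
    rw [Finset.mem_Ico] at hj
    have h1 := hρ hj.1
    refine ⟨hρ0 j, by linarith, ?_⟩
    have := hρ1 j
    nlinarith [norm_nonneg z, hρ0 j]

theorem uniform_cauchy (ρ : ℕ → ℝ) (hρ : Monotone ρ) (hρ0 : ∀ j, 0 < ρ j) (hρ1 : ∀ j, ρ j < 1)
    (hlim : Tendsto ρ atTop (𝓝 1)) (r : ℝ) (hr0 : 0 ≤ r) (hr1 : r < 1) :
    UniformCauchySeqOn (F ρ) atTop (Metric.closedBall 0 r) := by
  obtain ⟨K, hK0, hK⟩ := tail_norm_bound r hr0 hr1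
  obtain ⟨a0, ha0⟩ := (hlim.eventually (lt_mem_nhds (show (1 + r) / 2 < 1 by linarith))).exists
  have hsub : Metric.closedBall (0 : ℂ) r ⊆ Metric.ball 0 1 :=
    Metric.closedBall_subset_ball hr1
  obtain ⟨M0, hM0⟩ := (isCompact_closedBall (0 : ℂ) r).exists_bound_of_continuousOn
    ((F_differentiableOn ρ hρ0 hρ1 a0).continuousOn.mono hsub)
  have hM0nn : 0 ≤ M0 := by
    have := hM0 0 (by simpa using hr0)
    exact (norm_nonneg _).trans this
  -- uniform bound
  have hM : ∀ n, a0 ≤ n → ∀ z ∈ Metric.closedBall (0 : ℂ) r, ‖F ρ n z‖ ≤ M0 * Real.exp K := by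
    intro n hn z hz
    have hz' := hz
    rw [Metric.mem_closedBall, dist_zero_right] at hz'
    rw [F_split ρ hρ hρ0 hρ1 z a0 n hn (by linarith), norm_mul, Complex.norm_exp]
    have h1 := hK ρ hρ hρ1 z hz' a0 n hn ha0.le
    have h2 := Complex.re_le_norm (∑ j ∈ Ico a0 n, ell z j (ρ j))
    have h3 : K * (1 - ρ a0) ≤ K := by nlinarith [hρ0 a0]
    have h4 := hM0 z hz
    gcongr
    linarith
  rw [Metric.uniformCauchySeqOn_iff]
  intro ε hε
  -- choose N
  obtain ⟨N, hN⟩ : ∃ N, a0 ≤ N ∧ K * (1 - ρ N) ≤ 1 ∧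
      M0 * Real.exp K * (2 * (K * (1 - ρ N))) < ε / 2 := by
    have h1 : Tendsto (fun n => K * (1 - ρ n)) atTop (𝓝 0) := by
      have := (hlim.const_sub 1).const_mul K
      simpa using this
    have h2 : Tendsto (fun n => M0 * Real.exp K * (2 * (K * (1 - ρ n)))) atTop (𝓝 0) := by
      have := (h1.const_mul 2).const_mul (M0 * Real.exp K)
      simpa using this
    have e1 := h1.eventually (gt_mem_nhds (show (0 : ℝ) < 1 by norm_num))
    have e2 := h2.eventually (gt_mem_nhds (show (0 : ℝ) < ε / 2 by linarith))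
    obtain ⟨N, hN⟩ := ((eventually_ge_atTop a0).and (e1.and e2)).exists
    exact ⟨N, hN.1, hN.2.1.le, hN.2.2⟩
  have key : ∀ n ≥ N, ∀ z ∈ Metric.closedBall (0 : ℂ) r, dist (F ρ n z) (F ρ N z) < ε / 2 := by
    intro n hn z hz
    have hz' := hz
    rw [Metric.mem_closedBall, dist_zero_right] at hz'
    have hρN : (1 + r) / 2 ≤ ρ N := ha0.le.trans (hρ hN.1)
    rw [F_split ρ hρ hρ0 hρ1 z N n hn (by linarith), dist_eq_norm]
    have h1 := hK ρ hρ hρ1 z hz' N n hn hρN
    have h2 := Complex.norm_exp_sub_one_le (h1.trans hN.2.1)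
    have h3 : F ρ N z * Complex.exp (∑ j ∈ Ico N n, ell z j (ρ j)) - F ρ N z
        = F ρ N z * (Complex.exp (∑ j ∈ Ico N n, ell z j (ρ j)) - 1) := by ring
    rw [h3, norm_mul]
    refine lt_of_le_of_lt ?_ hN.2.2
    have h4 := hM N hN.1 z hz
    gcongr
    linarith
  refine ⟨N, fun m hm n hn z hz => ?_⟩
  have h1 := key m hm z hz
  have h2 := key n hn z hz
  calc dist (F ρ m z) (F ρ n z) ≤ dist (F ρ m z) (F ρ N z) + dist (F ρ N z) (F ρ n z) :=
        dist_triangle _ _ _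
    _ < ε / 2 + ε / 2 := by
        rw [dist_comm (F ρ N z)]
        exact add_lt_add h1 h2
    _ = ε := by ring

theorem exists_limit (ρ : ℕ → ℝ) (hρ : Monotone ρ) (hρ0 : ∀ j, 0 < ρ j) (hρ1 : ∀ j, ρ j < 1)
    (hlim : Tendsto ρ atTop (𝓝 1)) :
    ∃ f : ℂ → ℂ, DifferentiableOn ℂ f (Metric.ball 0 1) ∧
      ∀ z ∈ Metric.ball (0 : ℂ) 1, Tendsto (fun n => F ρ n z) atTop (𝓝 (f z)) := by
  refine ⟨fun z => limUnder atTop (fun n => F ρ n z), ?_, ?_⟩
  swap
  · intro z hz
    rw [Metric.mem_ball, dist_zero_right] at hz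
    have h1 := uniform_cauchy ρ hρ hρ0 hρ1 hlim ‖z‖ (norm_nonneg z) hz
    have h2 : CauchySeq (fun n => F ρ n z) := h1.cauchySeq (by simp)
    exact h2.tendsto_limUnder
  · have hloc : TendstoLocallyUniformlyOn (F ρ) (fun z => limUnder atTop (fun n => F ρ n z)) atTop
        (Metric.ball 0 1) := by
      rw [tendstoLocallyUniformlyOn_iff_forall_isCompact Metric.isOpen_ball]
      intro C hC hCc
      obtain ⟨r, hr0, hr1, hCr⟩ : ∃ R : ℝ, 0 ≤ R ∧ R < 1 ∧ C ⊆ Metric.closedBall 0 R := by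
        rcases C.eq_empty_or_nonempty with rfl | hne
        · exact ⟨0, le_refl _, zero_lt_one, by simp⟩
        · obtain ⟨z, hz, hmax⟩ := hCc.exists_isMaxOn hne (continuous_norm.continuousOn)
          refine ⟨‖z‖, norm_nonneg _, ?_, fun w hw => ?_⟩
          · have := hC hz
            rwa [Metric.mem_ball, dist_zero_right] at this
          · rw [Metric.mem_closedBall, dist_zero_right]
            exact hmax hw
      refine TendstoUniformlyOn.mono ?_ hCr
      apply (uniform_cauchy ρ hρ hρ0 hρ1 hlim r hr0 hr1).tendstoUniformlyOn_of_tendsto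
      intro z hz
      have hz' : ‖z‖ < 1 := by
        rw [Metric.mem_closedBall, dist_zero_right] at hz
        linarith
      have h1 := uniform_cauchy ρ hρ hρ0 hρ1 hlim ‖z‖ (norm_nonneg z) hz'
      have h2 : CauchySeq (fun n => F ρ n z) := h1.cauchySeq (by simp)
      exact h2.tendsto_limUnder
    exact hloc.differentiableOn
      (Eventually.of_forall (fun n => F_differentiableOn ρ hρ0 hρ1 n)) Metric.isOpen_ball

end Pool.Agent.Results.MP_f69e58_an.UniversalRotation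


namespace Pool.Agent.Results.MP_f69e58_an.UniversalRotation

open Finset Complex Filter Topology MeasureTheory

theorem indicator_inv_eq (a : ℝ) (t : ℝ) :
    Set.indicator (Set.Ici a) (fun t : ℝ => t⁻¹) t = if a ≤ t then t⁻¹ else 0 := by
  simp [Set.indicator_apply]

theorem integrable_piece (a r : ℝ) (ha : 0 < a) (hr : 0 ≤ r) :
    IntervalIntegrable (Set.indicator (Set.Ici a) (fun t : ℝ => t⁻¹)) volume 0 r := by
  rw [intervalIntegrable_iff_integrableOn_Ioc_of_le hr]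
  have h1 : IntegrableOn (fun t : ℝ => t⁻¹) (Set.Icc a r) := by
    apply ContinuousOn.integrableOn_compact isCompact_Icc
    apply ContinuousOn.inv₀ continuousOn_id
    intro x hx
    exact (lt_of_lt_of_le ha hx.1).ne'
  have h2 : IntegrableOn (Set.indicator (Set.Ici a) (fun t : ℝ => t⁻¹)) (Set.Ioc 0 r) := by
    rw [IntegrableOn, integrable_indicator_iff measurableSet_Ici, IntegrableOn,
      Measure.restrict_restrict measurableSet_Ici]
    apply h1.mono_set
    intro x hx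
    exact ⟨hx.1, hx.2.2⟩
  exact h2

theorem integral_piece (a r : ℝ) (ha : 0 < a) (hr : 0 < r) :
    ∫ t in (0 : ℝ)..r, Set.indicator (Set.Ici a) (fun t : ℝ => t⁻¹) t
      = Real.log (max 1 (r / a)) := by
  rw [intervalIntegral.integral_of_le hr.le, integral_indicator measurableSet_Ici,
    Measure.restrict_restrict measurableSet_Ici]
  rcases le_or_gt a r with har | hra
  · have hset : Set.Ici a ∩ Set.Ioc 0 r = Set.Icc a r := by
      ext x
      simp only [Set.mem_inter_iff, Set.mem_Ici, Set.mem_Ioc, Set.mem_Icc]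
      constructor
      · rintro ⟨h1, h2, h3⟩; exact ⟨h1, h3⟩
      · rintro ⟨h1, h2⟩; exact ⟨h1, by linarith, h2⟩
    rw [hset, integral_Icc_eq_integral_Ioc, ← intervalIntegral.integral_of_le har,
      integral_inv_of_pos ha hr, max_eq_right]
    rwa [le_div_iff₀ ha, one_mul]
  · have hset : Set.Ici a ∩ Set.Ioc 0 r = ∅ := by
      ext x
      simp only [Set.mem_inter_iff, Set.mem_Ici, Set.mem_Ioc, Set.mem_empty_iff_false, iff_false]
      rintro ⟨h1, h2, h3⟩
      linarith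
    rw [hset, Measure.restrict_empty, integral_zero_measure, max_eq_left]
    · simp
    · rw [div_le_one ha]; exact hra.le

theorem prod_le_exp_count (ρ : ℕ → ℝ) (hρ0 : ∀ j, 0 < ρ j)
    (hfin : ∀ t : ℝ, t < 1 → {j : ℕ | ρ j ≤ t}.Finite) (r : ℝ) (hr0 : 0 < r) (hr1 : r < 1)
    (n : ℕ) :
    ∏ j ∈ range n, max 1 (r / ρ j) ≤
      Real.exp (∫ t in (0 : ℝ)..r, (Nat.card {j : ℕ // ρ j ≤ t} : ℝ) / t) := by
  -- an index beyond which everything exceeds r
  obtain ⟨m, hnm, hm⟩ : ∃ m, n ≤ m ∧ ∀ j, m ≤ j → r < ρ j := by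
    obtain ⟨B, hB⟩ := (hfin r hr1).bddAbove
    refine ⟨max n (B + 1), le_max_left _ _, fun j hj => ?_⟩
    by_contra hcon
    push Not at hcon
    have h1 : j ≤ B := hB hcon
    have h2 : B + 1 ≤ j := le_trans (le_max_right _ _) hj
    omega
  have hcard : ∀ t ∈ Set.uIcc 0 r, (Nat.card {j : ℕ // ρ j ≤ t} : ℝ) / t
      = ∑ j ∈ range m, Set.indicator (Set.Ici (ρ j)) (fun t : ℝ => t⁻¹) t := by
    intro t ht
    rw [Set.uIcc_of_le hr0.le] at ht
    have h1 : Nat.card {j : ℕ // ρ j ≤ t} = ((range m).filter (fun j => ρ j ≤ t)).card := by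
      apply Nat.subtype_card
      intro j
      rw [Finset.mem_filter, Finset.mem_range]
      constructor
      · exact fun h => h.2
      · intro h
        refine ⟨?_, h⟩
        by_contra hcon
        push Not at hcon
        have := hm j hcon
        linarith [ht.2]
    rw [h1, Finset.card_filter, Nat.cast_sum, Finset.sum_div]
    apply Finset.sum_congr rfl
    intro j _
    rw [indicator_inv_eq]
    split_ifs <;> simp
  rw [intervalIntegral.integral_congr hcard, intervalIntegral.integral_finsetSum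
    (fun j _ => integrable_piece (ρ j) r (hρ0 j) hr0.le), Real.exp_sum]
  have h1 : ∀ j ∈ range m, Real.exp (∫ t in (0 : ℝ)..r,
      Set.indicator (Set.Ici (ρ j)) (fun t : ℝ => t⁻¹) t) = max 1 (r / ρ j) := by
    intro j _
    rw [integral_piece _ _ (hρ0 j) hr0, Real.exp_log]
    exact lt_of_lt_of_le one_pos (le_max_left _ _)
  rw [Finset.prod_congr rfl h1, ← Finset.prod_range_mul_prod_Ico _ hnm]
  apply le_mul_of_one_le_right
  · exact Finset.prod_nonneg (fun j _ => le_trans zero_le_one (le_max_left _ _))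
  · exact Finset.prod_induction _ (fun x : ℝ => 1 ≤ x)
      (fun a b ha hb => one_le_mul_of_one_le_of_one_le ha hb) le_rfl
      (fun j _ => le_max_left _ _)


theorem final_integrable (p α : ℝ) (hp : 0 < p) (N : ℝ → ℝ)
    (hN : IntegrableOn (fun r : ℝ => (1 - r) ^ α * Real.exp (p * N r)) (Set.Ioo 0 1))
    (f : ℂ → ℂ) (hf : DifferentiableOn ℂ f (Metric.ball 0 1)) (C : ℝ)
    (hb : ∀ z ∈ Metric.ball (0 : ℂ) 1, ‖f z‖ ≤ Real.exp C * Real.exp (N (1 - (1 - ‖z‖) / 80))) :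
    IntegrableOn (fun z : ℂ => (1 - ‖z‖ ^ 2) ^ α * ‖f z‖ ^ p) (Metric.ball 0 1) := by
  -- the radial majorant
  let G : ℝ → ℝ := Set.indicator (Set.Ioo 0 1) (fun r : ℝ => (1 - r) ^ α * Real.exp (p * N r))
  have hG : Integrable G := by
    rw [← integrable_indicator_iff measurableSet_Ioo] at hN
    exact hN
  have hG0 : ∀ s, 0 ≤ G s := by
    intro s
    apply Set.indicator_nonneg
    intro x hx
    have : 0 < 1 - x := by linarith [hx.2]
    positivity
  have hG1 : Integrable (fun r : ℝ => G (1 - (1 - r) / 80)) := by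
    have h1 : Integrable (fun r : ℝ => G (79 / 80 + r)) := hG.comp_add_left (79 / 80)
    have h2 := h1.comp_div (R := 80) (by norm_num)
    refine h2.congr (Eventually.of_forall (fun r => ?_))
    simp only
    congr 1
    ring
  have hG2 : IntegrableOn (fun y : ℝ => y ^ (Module.finrank ℝ ℂ - 1) • G (1 - (1 - y) / 80))
      (Set.Ioo 0 1) := by
    rw [Complex.finrank_real_complex]
    simp only [Nat.add_one_sub_one, pow_one, smul_eq_mul]
    refine Integrable.bdd_mul (c := 1) hG1.integrableOn ?_ ?_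
    · exact measurable_id.aestronglyMeasurable
    · rw [ae_restrict_iff' measurableSet_Ioo]
      refine Eventually.of_forall (fun y hy => ?_)
      rw [Real.norm_eq_abs, abs_of_pos hy.1]
      exact hy.2.le
  have hG3 : IntegrableOn (fun z : ℂ => G (1 - (1 - ‖z‖) / 80)) (Metric.ball 0 1) :=
    (integrableOn_fun_norm_addHaar volume (f := fun y => G (1 - (1 - y) / 80))).mpr hG2
  -- the domination constant
  have hdom : IntegrableOn (fun z : ℂ => (2 : ℝ) ^ |α| * 80 ^ α * Real.exp (C * p) *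
      G (1 - (1 - ‖z‖) / 80)) (Metric.ball 0 1) := hG3.const_mul _
  refine Integrable.mono' hdom ?_ ?_
  · apply ContinuousOn.aestronglyMeasurable _ measurableSet_ball
    apply ContinuousOn.mul
    · apply ContinuousOn.rpow_const (by fun_prop)
      intro z hz
      left
      rw [Metric.mem_ball, dist_zero_right] at hz
      have h0 := norm_nonneg z
      have : 0 < 1 - ‖z‖ ^ 2 := by nlinarith
      exact this.ne'
    · apply ContinuousOn.rpow_const hf.continuousOn.norm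
      intro z _
      right
      exact hp.le
  · rw [ae_restrict_iff' measurableSet_ball]
    refine Eventually.of_forall (fun z hz => ?_)
    have hbz := hb z hz
    rw [Metric.mem_ball, dist_zero_right] at hz
    have h0 := norm_nonneg z
    have hpos : 0 < 1 - ‖z‖ := by linarith
    have hpos2 : 0 < 1 - ‖z‖ ^ 2 := by nlinarith
    rw [Real.norm_eq_abs, abs_of_nonneg (by positivity)]
    have hs : 1 - (1 - ‖z‖) / 80 ∈ Set.Ioo (0 : ℝ) 1 := by
      constructor <;> linarith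
    have hGs : G (1 - (1 - ‖z‖) / 80)
        = ((1 - ‖z‖) / 80) ^ α * Real.exp (p * N (1 - (1 - ‖z‖) / 80)) := by
      simp only [G]
      rw [Set.indicator_of_mem hs]
      congr 2
      ring
    rw [hGs]
    have hf1 : ‖f z‖ ^ p ≤ Real.exp (C * p) * Real.exp (p * N (1 - (1 - ‖z‖) / 80)) := by
      calc ‖f z‖ ^ p ≤ (Real.exp C * Real.exp (N (1 - (1 - ‖z‖) / 80))) ^ p := by gcongr
        _ = Real.exp (C * p) * Real.exp (p * N (1 - (1 - ‖z‖) / 80)) := by
          rw [← Real.exp_add, ← Real.exp_mul, ← Real.exp_add]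
          congr 1
          ring
    have hw : (1 - ‖z‖ ^ 2) ^ α ≤ 2 ^ |α| * (1 - ‖z‖) ^ α := by
      have e : 1 - ‖z‖ ^ 2 = (1 + ‖z‖) * (1 - ‖z‖) := by ring
      rw [e, Real.mul_rpow (by linarith) hpos.le]
      apply mul_le_mul_of_nonneg_right _ (by positivity)
      calc (1 + ‖z‖) ^ α ≤ (1 + ‖z‖) ^ |α| :=
            Real.rpow_le_rpow_of_exponent_le (by linarith) (le_abs_self α)
        _ ≤ 2 ^ |α| := by
            apply Real.rpow_le_rpow (by linarith) (by linarith) (abs_nonneg α)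
    have h80 : (80 : ℝ) ^ α * ((1 - ‖z‖) / 80) ^ α = (1 - ‖z‖) ^ α := by
      rw [← Real.mul_rpow (by norm_num) (by positivity)]
      congr 1
      ring
    calc (1 - ‖z‖ ^ 2) ^ α * ‖f z‖ ^ p
        ≤ (2 ^ |α| * (1 - ‖z‖) ^ α) *
          (Real.exp (C * p) * Real.exp (p * N (1 - (1 - ‖z‖) / 80))) := by gcongr
      _ = 2 ^ |α| * 80 ^ α * Real.exp (C * p) *
          (((1 - ‖z‖) / 80) ^ α * Real.exp (p * N (1 - (1 - ‖z‖) / 80))) := by
          rw [← h80]; ring

end Pool.Agent.Results.MP_f69e58_an.UniversalRotation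

namespace Pool.Agent.Results.MP_f69e58_an.UniversalRotation

open Filter Topology MeasureTheory

theorem vdc_mem (n : ℕ) : 0 ≤ vdc n ∧ vdc n < 1 := by
  induction n using Nat.strong_induction_on with
  | _ n ih =>
    rcases Nat.even_or_odd' n with ⟨c, rfl | rfl⟩
    · rcases Nat.eq_zero_or_pos c with rfl | hc
      · simp [vdc]
      · have := ih c (by omega)
        rw [vdc_two_mul]
        constructor <;> linarith [this.1, this.2]
    · have := ih c (by omega)
      rw [vdc_two_mul_add_one]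
      constructor <;> linarith [this.1, this.2]

theorem vdc_injective : Function.Injective vdc := by
  intro m
  induction m using Nat.strong_induction_on with
  | _ m ih =>
    intro n hmn
    rcases Nat.even_or_odd' m with ⟨c, hc | hc⟩ <;> rcases Nat.even_or_odd' n with ⟨e, he | he⟩
    · subst hc; subst he
      rw [vdc_two_mul, vdc_two_mul] at hmn
      rcases Nat.eq_zero_or_pos c with rfl | hc0
      · rcases Nat.eq_zero_or_pos e with rfl | he0
        · rfl
        · exfalso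
          have h0 : vdc e = vdc 0 := by linarith
          have : ∀ k : ℕ, 0 < k → vdc k ≠ 0 := by
            intro k
            induction k using Nat.strong_induction_on with
            | _ k ihk =>
              intro hk
              rcases Nat.even_or_odd' k with ⟨a, ha | ha⟩
              · subst ha
                rw [vdc_two_mul]
                have := ihk a (by omega) (by omega)
                intro h
                apply this
                linarith
              · subst ha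
                rw [vdc_two_mul_add_one]
                have := (vdc_mem a).1
                intro h
                linarith
          apply this e he0
          rw [h0]
          simp [vdc]
      · have := ih c (by omega) (a₂ := e) (by linarith)
        rw [this]
    · subst hc; subst he
      exfalso
      rw [vdc_two_mul, vdc_two_mul_add_one] at hmn
      linarith [(vdc_mem c).2, (vdc_mem e).1]
    · subst hc; subst he
      exfalso
      rw [vdc_two_mul, vdc_two_mul_add_one] at hmn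
      linarith [(vdc_mem c).1, (vdc_mem e).2]
    · subst hc; subst he
      rw [vdc_two_mul_add_one, vdc_two_mul_add_one] at hmn
      have := ih c (by omega) (a₂ := e) (by linarith)
      rw [this]

/-- Universal rotation theorem: there is one fixed sequence of pairwise different angles
`φ j ∈ [0, 2π)` which works for all `p`, `α` and all sequences of moduli. -/
theorem result :
    ∃ φ : ℕ → ℝ, (∀ j, φ j ∈ Set.Ico 0 (2 * Real.pi)) ∧ Function.Injective φ ∧
      ∀ ρ : ℕ → ℝ, (∀ j, 0 < ρ j) → Monotone ρ → (∀ j, ρ j < 1) →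
        (∀ t : ℝ, t < 1 → {j : ℕ | ρ j ≤ t}.Finite) →
        ∃ f : ℂ → ℂ, DifferentiableOn ℂ f (Metric.ball 0 1) ∧ f 0 = 1 ∧
          (∀ j, f ((ρ j : ℂ) * Complex.exp ((φ j : ℂ) * Complex.I)) = 0) ∧
          (∀ z ∈ Metric.ball (0 : ℂ) 1, ‖f z‖ ≤ Real.exp 55 * Real.exp
            (∫ t in (0 : ℝ)..(1 - (1 - ‖z‖) / 80), (Nat.card {j : ℕ // ρ j ≤ t} : ℝ) / t)) ∧
          ∀ p α : ℝ, 0 < p → -1 < α →
            IntegrableOn (fun r : ℝ => (1 - r) ^ α *
              Real.exp (p * ∫ t in (0 : ℝ)..r, (Nat.card {j : ℕ // ρ j ≤ t} : ℝ) / t))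
              (Set.Ioo 0 1) →
            IntegrableOn (fun z : ℂ => (1 - ‖z‖ ^ 2) ^ α * ‖f z‖ ^ p) (Metric.ball 0 1) := by
  have hpi := Real.pi_pos
  refine ⟨fun j => 2 * Real.pi * vdc j, ?_, ?_, ?_⟩
  · intro j
    obtain ⟨h1, h2⟩ := vdc_mem j
    constructor
    · positivity
    · nlinarith
  · intro i j hij
    apply vdc_injective
    have h2 : (2 * Real.pi) ≠ 0 := by positivity
    exact mul_left_cancel₀ h2 hij
  intro ρ hρ0 hρ hρ1 hfin
  have hlim : Tendsto ρ atTop (𝓝 1) := by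
    rw [tendsto_order]
    constructor
    · intro t ht
      obtain ⟨B, hB⟩ := (hfin t ht).bddAbove
      filter_upwards [eventually_gt_atTop B] with j hj
      by_contra hcon
      push Not at hcon
      have h1 : j ≤ B := hB hcon
      omega
    · intro t ht
      exact Eventually.of_forall (fun j => lt_trans (hρ1 j) ht)
  obtain ⟨f, hf, hft⟩ := exists_limit ρ hρ hρ0 hρ1 hlim
  have hbound : ∀ z ∈ Metric.ball (0 : ℂ) 1, ‖f z‖ ≤ Real.exp 55 * Real.exp
      (∫ t in (0 : ℝ)..(1 - (1 - ‖z‖) / 80), (Nat.card {j : ℕ // ρ j ≤ t} : ℝ) / t) := by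
    intro z hz
    have hz' := hz
    rw [Metric.mem_ball, dist_zero_right] at hz'
    have h0 := norm_nonneg z
    apply le_of_tendsto' (hft z hz).norm
    intro n
    refine (main_bound ρ hρ hρ0 hρ1 n z hz').trans ?_
    apply mul_le_mul_of_nonneg_left _ (Real.exp_pos _).le
    exact prod_le_exp_count ρ hρ0 hfin (1 - (1 - ‖z‖) / 80) (by linarith) (by linarith) n
  refine ⟨f, hf, ?_, ?_, hbound, ?_⟩
  · have h1 : Tendsto (fun n => F ρ n 0) atTop (𝓝 1) := by
      have : ∀ n, F ρ n 0 = 1 := by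
        intro n
        unfold F fac
        simp
      simp only [this]
      exact tendsto_const_nhds
    exact tendsto_nhds_unique (hft 0 (by simp)) h1
  · intro j
    have hpt : (ρ j : ℂ) * Complex.exp (((2 * Real.pi * vdc j : ℝ) : ℂ) * Complex.I)
        = (ρ j : ℂ) * (eta j)⁻¹ := by
      congr 1
      unfold eta
      rw [← Complex.exp_neg]
      congr 1
      push_cast
      ring
    change f ((ρ j : ℂ) * Complex.exp (((2 * Real.pi * vdc j : ℝ) : ℂ) * Complex.I)) = 0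
    rw [hpt]
    have hmem : (ρ j : ℂ) * (eta j)⁻¹ ∈ Metric.ball (0 : ℂ) 1 := by
      rw [Metric.mem_ball, dist_zero_right, norm_mul, norm_inv, norm_eta, Complex.norm_real,
        Real.norm_eq_abs, abs_of_pos (hρ0 j), inv_one, mul_one]
      exact hρ1 j
    have h1 : Tendsto (fun n => F ρ n ((ρ j : ℂ) * (eta j)⁻¹)) atTop (𝓝 0) := by
      apply tendsto_const_nhds.congr'
      filter_upwards [eventually_gt_atTop j] with n hn
      symm
      unfold F
      apply Finset.prod_eq_zero (Finset.mem_range.mpr hn)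
      have he : eta j * ((ρ j : ℂ) * (eta j)⁻¹) = ρ j := by
        have := eta_ne_zero j
        field_simp
      rw [he]
      unfold fac
      have hρj : (ρ j : ℂ) ≠ 0 := by exact_mod_cast (hρ0 j).ne'
      rw [div_self hρj, sub_self, zero_div]
    exact tendsto_nhds_unique (hft _ hmem) h1
  · intro p α hp _ hint
    exact final_integrable p α hp _ hint f hf 55 hbound

end Pool.Agent.Results.MP_f69e58_an.UniversalRotation
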